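import Pool.Agent.helper71.FT.Spec

/-!
# Row PGO of project FT (MP_07c750): the function of one open set
-/

open scoped MatrixGroups ContDiff Topology UpperHalfPlane ComplexConjugate
open UpperHalfPlane MeasureTheory Filter Set

set_option autoImplicit false

namespace Pool.Agent.FT

open Pool.Agent.RS
open Pool.Agent.MS (bq BB BA SF pf)
open Pool.Agent.EN (XG MG mkX mkM fl pr)
open Pool.Agent.FS (tp)

theorem PGO_PQ {c c' e : ℝ} {n : ℕ} {Y : Set ℝ} (hc : c' ≤ c) (h : PQ c e n Y) : PQ c' e n Y := by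
  obtain ⟨B, hB, hY⟩ := h
  refine ⟨B, hB, ?_⟩
  intro k hk hkB r hr1 hr2 v
  obtain ⟨x, hx, hd⟩ := hY k hk hkB r hr1 hr2 v
  refine ⟨x, hx, hd.mono_left ?_⟩
  have hr0 : 0 ≤ r := (Real.exp_pos _).le.trans hr1
  have hcr : c' * r ≤ c * r := mul_le_mul_of_nonneg_right hc hr0
  exact Ioo_subset_Ioo (by linarith) (by linarith)

theorem PGO_QP {c c' e : ℝ} {n : ℕ} {U U' : Set ℝ} (hc : c' ≤ c) (hU : U' ⊆ U) (h : QP c e n U) : QP c' e n U' := by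
  obtain ⟨YY, h1, h2, h3⟩ := h
  exact ⟨YY, h1, hU.trans h2, fun Y hY => PGO_PQ hc (h3 Y hY)⟩

theorem PGO_proof (hCHF : FS.CHF_stmt) (hPGN : PGN_stmt) (hVMB : VMB_stmt) (hVMS : VMS_stmt) (hPGF : PGF_stmt)
    (hPGB : PGB_stmt) : PGO_stmt := by
  intro Γ O hΓ hO hOne
  obtain ⟨O1, A, hO1, hO1ne, hA, hN⟩ := hPGN Γ O hΓ hO hOne
  obtain ⟨O', c0, C, χ, χa, χn, χl, hO', hO'ne, hc0, hC, hSF, hχ, hχn, hχl, hii, hiii⟩ := hCHF Γ O1 hΓ hO1 hO1ne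
  obtain ⟨c1, hc1, hc1', hF⟩ := hPGF Γ O' c0 χ hΓ hO' hO'ne hc0 hiii
  obtain ⟨c2, hc2, hc2', hB⟩ := hPGB Γ O' c0 χ hΓ hO' hO'ne hc0 hiii
  refine ⟨min c1 c2, 2 * C, lt_min hc1 hc2, (min_le_left _ _).trans_lt hc1', by linarith, ?_⟩
  intro e he
  obtain ⟨θ1, n1, hθ1, hF1⟩ := hF e he
  obtain ⟨θ2, n2, hθ2, hB2⟩ := hB e he
  have hA0 : 0 < A := by linarith
  obtain ⟨θ', hθ'⟩ : ∃ θ' : ℝ, θ' = min θ1 θ2 := ⟨_, rfl⟩
  have hθ0 : 0 < θ' := by rw [hθ']; exact lt_min hθ1 hθ2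
  have hle1 : θ' ≤ θ1 := by rw [hθ']; exact min_le_left _ _
  have hle2 : θ' ≤ θ2 := by rw [hθ']; exact min_le_right _ _
  obtain ⟨n3, hn3⟩ := exists_nat_ge (2 * (A + 1) / θ')
  refine ⟨θ' / (2 * A), max (max n1 n2) n3, by positivity, ?_⟩
  intro n hn
  have hn1 : n1 ≤ n := (le_max_left n1 n2).trans ((le_max_left _ _).trans hn)
  have hn2 : n2 ≤ n := (le_max_right n1 n2).trans ((le_max_left _ _).trans hn)
  have hn4 : n3 ≤ n := (le_max_right _ _).trans hn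
  have hbig : A + 1 ≤ θ' * n / 2 := by
    have h1 : 2 * (A + 1) / θ' ≤ (n : ℝ) := hn3.trans (by exact_mod_cast hn4)
    rw [div_le_iff₀ hθ0] at h1
    linarith
  obtain ⟨m, hm⟩ : ∃ m : ℕ, m = ⌊θ' * n⌋₊ := ⟨_, rfl⟩
  have hθn : 0 ≤ θ' * n := by positivity
  have hmle : (m : ℝ) ≤ θ' * n := by rw [hm]; exact Nat.floor_le hθn
  have hmge : θ' * n - 1 ≤ (m : ℝ) := by
    have h1 := Nat.lt_floor_add_one (θ' * n)
    rw [← hm] at h1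
    linarith
  have hm1 : (m : ℝ) ≤ θ1 * n := hmle.trans (mul_le_mul_of_nonneg_right hle1 (Nat.cast_nonneg n))
  have hm2 : (m : ℝ) ≤ θ2 * n := hmle.trans (mul_le_mul_of_nonneg_right hle2 (Nat.cast_nonneg n))
  obtain ⟨Ψa, Ψn, Ψl, hS, hbn, hbl⟩ := hVMS Γ C χ χa χn χl n m hC hSF hχ hχn hχl
  refine ⟨vm χ n m, Ψa, Ψn, Ψl, ⟨hS, ?_, hbn, hbl, ?_, ?_⟩, ?_⟩
  · intro g
    exact ⟨(hVMB χ n m g hχ).1, (hVMB χ n m g hχ).2.1⟩
  · intro g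
    refine PGO_QP (min_le_left _ _) ?_ (hF1 n m hn1 hm1 g)
    intro w hw
    exact (hVMB χ n m (g * lM w) hχ).2.2.2.2 hw
  · intro g
    refine PGO_QP (min_le_right _ _) ?_ (hB2 n m hn2 hm2 g)
    rintro z ⟨τ, o, hτ, ho, hz⟩
    exact ⟨τ, o, hτ, ho.trans (min_le_right _ _), (hVMB χ n m _ hχ).2.2.2.2 hz⟩
  · intro x hx
    obtain ⟨g, rfl⟩ : ∃ g : SL(2, ℝ), mkX Γ g = x := Quotient.mk_surjective x
    refine ⟨g, rfl, (hVMB χ n m g hχ).2.2.2.1 ?_⟩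
    have hS : ∀ i ∈ (Finset.range n).filter fun i : ℕ => χ (g * aM (i : ℝ)) ≠ 1, i < n ∧
        ∃ s : ℝ, |s| ≤ 4 ∧ mkX Γ (g * aM (i : ℝ) * aM s) ∈ O1 := by
      intro i hi
      rw [Finset.mem_filter, Finset.mem_range] at hi
      refine ⟨hi.1, ?_⟩
      by_contra hcon
      exact hi.2 (hii (g * aM (i : ℝ)) fun s hs hmem => hcon ⟨s, hs, hmem⟩)
    have h1 := hN n g _ hS
    have h2 : A * (volume.real {t : ℝ | t ∈ Icc (0 : ℝ) n ∧ fl Γ t (mkX Γ g) ∈ O} + 1) ≤ A * (θ' / (2 * A) * n + 1) :=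
      mul_le_mul_of_nonneg_left (by linarith) hA0.le
    have h3 : A * (θ' / (2 * A) * n + 1) = θ' * n / 2 + A := by
      field_simp
    have h4 : (((Finset.range n).filter fun i : ℕ => χ (g * aM (i : ℝ)) ≠ 1).card : ℝ) ≤ (m : ℝ) := by
      linarith
    exact_mod_cast h4

end Pool.Agent.FT
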